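import Pool.Agent.P.MP_72c5f4_co.R.Main

namespace Pool.Agent.Results.MP_72c5f4_co.AlmostAllRigid

open Filter Topology

/-- Along `n ≡ 1, 3 (mod 6)`, the proportion of isomorphism classes of cyclic Steiner triple
systems of order `n` whose only automorphisms are the translations tends to one. -/
theorem result : Tendsto (fun n : ℕ => (CSTS.numRigid n : ℝ) / CSTS.numCyc n)
    (atTop ⊓ 𝓟 {n : ℕ | n % 6 = 1 ∨ n % 6 = 3}) (𝓝 1) :=
  CSTSR.limit

end Pool.Agent.Results.MP_72c5f4_co.AlmostAllRigid
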