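import Pool.Agent.P.MP_72c5f4_co.A.Final

namespace Pool.Agent.Results.MP_72c5f4_co.SharpCount

open Filter Topology

/-- The number `C n` of cyclic Steiner triple systems of order `n` up to isomorphism satisfies
`C n = ((1 + o(1)) n / e ^ 2) ^ (n / 6)` along `n ≡ 1, 3 (mod 6)`. -/
theorem result : Tendsto (fun n : ℕ => (CSTS.numCyc n : ℝ) ^ (6 / (n : ℝ)) / n)
    (atTop ⊓ 𝓟 {n : ℕ | n % 6 = 1 ∨ n % 6 = 3}) (𝓝 (1 / Real.exp 2)) :=
  CSTS.limit

end Pool.Agent.Results.MP_72c5f4_co.SharpCount
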